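import Pool.Agent.W2helper58.PW.Stm

set_option autoImplicit false

/-!
# Piece NUM of project PW: the choice of `l`
-/

namespace Pool.Agent.W2helper15.PW

open Pool.Agent.W2helper58.PW
open Finset Filter

/-- the number of the lengths -/
def MM (N : ℕ) : ℕ := Nat.log 2 (N + 1) + 1

lemma MM_mono {N N' : ℕ} (h : N ≤ N') : MM N ≤ MM N' := by
  unfold MM
  have := Nat.log_mono_right (b := 2) (show N + 1 ≤ N' + 1 by omega)
  omega

lemma MM_pos (N : ℕ) : 1 ≤ MM N := by unfold MM; omega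

lemma MM_le {N : ℕ} (hN : 4 ≤ N) : (MM N : ℝ) ≤ (Real.logb 2 N) ^ 2 := by
  have hN' : (4 : ℝ) ≤ N := by exact_mod_cast hN
  have h1 : ((Nat.log 2 (N + 1) : ℕ) : ℝ) ≤ Real.logb 2 ((N + 1 : ℕ) : ℝ) := by
    have := Real.natLog_le_logb (N + 1) 2
    simpa using this
  have h2 : Real.logb 2 ((N + 1 : ℕ) : ℝ) ≤ Real.logb 2 (2 * N) := by
    refine Real.logb_le_logb_of_le (by norm_num) (by positivity) ?_
    push_cast; linarith
  have h3 : Real.logb 2 (2 * N) = 1 + Real.logb 2 N := by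
    rw [Real.logb_mul (by norm_num) (by positivity), Real.logb_self_eq_one (by norm_num)]
  have h4 : (2 : ℝ) ≤ Real.logb 2 N := by
    rw [Real.le_logb_iff_rpow_le (by norm_num) (by positivity)]
    norm_num
    linarith
  unfold MM
  push_cast
  nlinarith

lemma MM_pow {f : ℕ → ℝ} (hf : ∀ C : ℕ, ∀ᶠ N : ℕ in atTop, (Real.logb 2 N) ^ C ≤ f N) (C : ℕ) :
    ∀ᶠ N : ℕ in atTop, (MM N : ℝ) ^ C ≤ f N := by
  filter_upwards [hf (2 * C), eventually_ge_atTop 4] with N h1 h2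
  refine le_trans ?_ h1
  rw [pow_mul]
  exact pow_le_pow_left₀ (Nat.cast_nonneg _) (MM_le h2) C

/-- all `N` with at least `n` lengths are good for the exponent `8 C + 8` -/
def QQ (f : ℕ → ℝ) (n C : ℕ) : Prop := ∀ N, n ≤ MM N → (MM N : ℝ) ^ (8 * C + 8) ≤ f N

lemma QQ_ev {f : ℕ → ℝ} (hf : ∀ C : ℕ, ∀ᶠ N : ℕ in atTop, (Real.logb 2 N) ^ C ≤ f N) (C : ℕ) :
    ∀ᶠ n : ℕ in atTop, QQ f n C := by
  obtain ⟨N0, h⟩ := eventually_atTop.1 (MM_pow hf (8 * C + 8))
  filter_upwards [eventually_gt_atTop (MM N0)] with n hn N hN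
  refine h N ?_
  by_contra hcon
  have := MM_mono (not_le.1 hcon).le
  omega

open Classical in
/-- the exponent -/
noncomputable def ka (f : ℕ → ℝ) (n : ℕ) : ℕ := Nat.findGreatest (QQ f n) n

lemma ka_spec {f : ℕ → ℝ} {n : ℕ} (h : ka f n ≠ 0) : QQ f n (ka f n) := by
  classical
  exact Nat.findGreatest_of_ne_zero rfl h

lemma ka_ge {f : ℕ → ℝ} (hf : ∀ C : ℕ, ∀ᶠ N : ℕ in atTop, (Real.logb 2 N) ^ C ≤ f N) (C : ℕ) :
    ∀ᶠ n : ℕ in atTop, C ≤ ka f n := by
  classical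
  filter_upwards [QQ_ev hf C, eventually_ge_atTop C] with n h1 h2
  exact Nat.le_findGreatest h2 h1

/-- the function -/
noncomputable def ll (f : ℕ → ℝ) (n : ℕ) : ℕ := min n (Nat.log 2 (n ^ ka f n))

lemma ll_up (f : ℕ → ℝ) (n : ℕ) (hn : 0 < n) : 2 ^ ll f n ≤ n ^ ka f n := by
  have h1 : n ^ ka f n ≠ 0 := by positivity
  exact (Nat.pow_le_pow_right (by norm_num) (min_le_right _ _)).trans (Nat.pow_log_le_self 2 h1)

lemma ll_low {f : ℕ → ℝ} (hf : ∀ C : ℕ, ∀ᶠ N : ℕ in atTop, (Real.logb 2 N) ^ C ≤ f N) (C : ℕ) :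
    ∀ᶠ n : ℕ in atTop, n ^ C ≤ 2 ^ ll f n := by
  have h0 : ∀ᶠ n : ℕ in atTop, n ^ C ≤ 2 ^ n := by
    have h := (isLittleO_pow_const_const_pow_of_one_lt (R := ℝ) C (show (1 : ℝ) < 2 by norm_num)).bound
      (show (0 : ℝ) < 1 by norm_num)
    filter_upwards [h] with n hn
    rw [one_mul, Real.norm_of_nonneg (by positivity), Real.norm_of_nonneg (by positivity)] at hn
    exact_mod_cast hn
  filter_upwards [h0, ka_ge hf (C + 1), eventually_ge_atTop 2] with n h1 h2 h3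
  unfold ll
  rcases min_choice n (Nat.log 2 (n ^ ka f n)) with h | h
  · rw [h]; exact h1
  · rw [h]
    have h4 : n ^ ka f n < 2 ^ (Nat.log 2 (n ^ ka f n) + 1) :=
      Nat.lt_pow_succ_log_self (by norm_num) _
    have h5 : n ^ (C + 1) ≤ n ^ ka f n := Nat.pow_le_pow_right (by omega) h2
    have h6 : 2 * n ^ C ≤ n ^ (C + 1) := by
      rw [pow_succ, mul_comm]
      exact Nat.mul_le_mul_left _ h3
    rw [pow_succ] at h4
    omega

lemma term {f : ℕ → ℝ} {n N : ℕ} (hn : n < MM N) (hN : 0 ≤ f N) :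
    (2 : ℝ) ^ (4 * ll f n) ≤ 1 + f N / (2 * MM N) := by
  have hM : (0 : ℝ) < MM N := by exact_mod_cast MM_pos N
  have hpos : 0 ≤ f N / (2 * MM N) := by positivity
  rcases Nat.eq_zero_or_pos n with h0 | h0
  · subst h0
    have : ll f 0 = 0 := by unfold ll; simp
    rw [this, mul_zero, pow_zero]
    linarith
  by_cases hk : ka f n = 0
  · have : ll f n = 0 := by unfold ll; rw [hk]; simp
    rw [this, mul_zero, pow_zero]
    linarith
  · have h1 := ka_spec hk N hn.le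
    have h2 : (2 : ℝ) ^ (4 * ll f n) ≤ (MM N : ℝ) ^ (4 * ka f n) := by
      have h3 : (2 : ℝ) ^ ll f n ≤ (MM N : ℝ) ^ ka f n := by
        have h4 : ((2 ^ ll f n : ℕ) : ℝ) ≤ ((n ^ ka f n : ℕ) : ℝ) := by
          exact_mod_cast ll_up f n h0
        push_cast at h4
        exact h4.trans (pow_le_pow_left₀ (Nat.cast_nonneg _) (by exact_mod_cast hn.le) _)
      rw [mul_comm 4, mul_comm 4, pow_mul, pow_mul]
      exact pow_le_pow_left₀ (by positivity) h3 4
    have hM2 : (2 : ℝ) ≤ MM N := by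
      have : 2 ≤ MM N := by omega
      exact_mod_cast this
    have h5 : (MM N : ℝ) ^ (4 * ka f n) * (2 * MM N) ≤ f N := by
      refine le_trans ?_ h1
      calc (MM N : ℝ) ^ (4 * ka f n) * (2 * MM N) ≤ (MM N : ℝ) ^ (4 * ka f n) * (MM N * MM N) := by
            refine mul_le_mul_of_nonneg_left ?_ (by positivity)
            exact mul_le_mul_of_nonneg_right hM2 hM.le
        _ = (MM N : ℝ) ^ (4 * ka f n + 2) := by ring
        _ ≤ (MM N : ℝ) ^ (8 * ka f n + 8) := pow_le_pow_right₀ (by linarith) (by omega)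
    have h6 : (MM N : ℝ) ^ (4 * ka f n) ≤ f N / (2 * MM N) := by
      rw [le_div_iff₀ (by positivity)]
      exact h5
    linarith

theorem p_num : P_num := by
  intro f hf
  refine ⟨ll f, fun n => min_le_left _ _, ll_low hf, ?_⟩
  obtain ⟨L, hL⟩ : ∃ L : ℕ → ℝ, ∀ N, L N =
      ((∑ n ∈ range (Nat.log 2 (N + 1) + 1), (n + 2 ^ (4 * ll f n)) : ℕ) : ℝ) := ⟨_, fun _ => rfl⟩
  have hL0 : ∀ N, 0 ≤ L N := fun N => by rw [hL]; exact Nat.cast_nonneg _
  obtain ⟨N0, hN0⟩ := eventually_atTop.1 (MM_pow hf 4)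
  obtain ⟨N1, hN1⟩ : ∃ N1, ∀ N, N1 ≤ N → 2 ≤ MM N := by
    refine ⟨4, fun N hN => ?_⟩
    have h1 := MM_mono hN
    have h2 : MM 4 = 3 := by
      have : Nat.log 2 5 = 2 := by
        rw [Nat.log_eq_iff (by norm_num)]; norm_num
      unfold MM
      rw [this]
    omega
  have big : ∀ N, max N0 N1 ≤ N → L N ≤ f N := by
    intro N hN
    have h1 := hN0 N ((le_max_left _ _).trans hN)
    have h2 : (2 : ℝ) ≤ MM N := by exact_mod_cast hN1 N ((le_max_right _ _).trans hN)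
    have hf0 : 0 ≤ f N := le_trans (by positivity) h1
    have h3 : L N ≤ ∑ n ∈ range (MM N), ((MM N : ℝ) + (1 + f N / (2 * MM N))) := by
      rw [hL, Nat.cast_sum]
      refine sum_le_sum fun n hn => ?_
      have hn' : n < MM N := mem_range.1 hn
      push_cast
      exact add_le_add (by exact_mod_cast hn'.le) (term hn' hf0)
    rw [sum_const, card_range, nsmul_eq_mul] at h3
    have h4 : (MM N : ℝ) * ((MM N : ℝ) + (1 + f N / (2 * MM N))) =
        (MM N : ℝ) ^ 2 + MM N + f N / 2 := by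
      field_simp
      ring
    rw [h4] at h3
    have h5 : (MM N : ℝ) ^ 2 + MM N ≤ (MM N : ℝ) ^ 4 / 2 := by
      have h6 : (4 : ℝ) ≤ (MM N : ℝ) ^ 2 := by nlinarith
      nlinarith [sq_nonneg ((MM N : ℝ) ^ 2 - 4)]
    linarith
  refine ⟨∑ N ∈ range (max N0 N1), (L N + |f N|), fun N => ?_⟩
  rw [← hL]
  have hnn : ∀ N ∈ range (max N0 N1), 0 ≤ L N + |f N| := fun N _ =>
    add_nonneg (hL0 N) (abs_nonneg _)
  rcases le_or_gt (max N0 N1) N with h | h
  · have := sum_nonneg hnn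
    have := big N h
    linarith
  · have h1 := single_le_sum hnn (mem_range.2 h)
    have h2 := neg_abs_le (f N)
    linarith

end Pool.Agent.W2helper15.PW
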