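import Pool.Agent.W2helper58.PW.Stm

set_option autoImplicit false

/-!
# Piece SP of project PW: counting planted strings
-/

namespace Pool.Agent.W2helper15.PW

open Pool.Agent.NPC Pool.Agent.H620R2.Gauge Pool.Agent.W2helper58.IR Pool.Agent.W2helper58.PW
open Finset

/-- the strings of length `m` -/
def lists (m : ℕ) : Finset (List Bool) := (univ : Finset (Fin m → Bool)).image List.ofFn

lemma lists_card (m : ℕ) : (lists m).card ≤ 2 ^ m := by
  unfold lists
  refine card_image_le.trans ?_
  simp

lemma mem_lists (x : List Bool) : x ∈ lists x.length :=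
  mem_image.2 ⟨x.get, mem_univ _, List.ofFn_get x⟩

/-- the planted strings which belong to `n` -/
def pl (l : ℕ → ℕ) (n : ℕ) : Finset (List Bool) :=
  (range n).image (lpos n) ∪
    (lists (l n) ×ˢ lists (3 * l n)).image fun x => dpos n x.1 x.2

lemma pl_card (l : ℕ → ℕ) (n : ℕ) : (pl l n).card ≤ n + 2 ^ (4 * l n) := by
  unfold pl
  refine (card_union_le _ _).trans (add_le_add ?_ ?_)
  · exact card_image_le.trans (le_of_eq (card_range n))
  · refine card_image_le.trans ?_
    rw [card_product]
    refine (Nat.mul_le_mul (lists_card _) (lists_card _)).trans (le_of_eq ?_)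
    rw [← pow_add]
    congr 1
    ring

lemma mem_pl {l : ℕ → ℕ} {u : List Bool} (h : u ∈ Tp l) : ∃ n, n ≤ u.length ∧ u ∈ pl l n := by
  rcases h with ⟨n, i, hi, rfl⟩ | ⟨n, r, c, hr, hc, rfl⟩
  · refine ⟨n, ?_, mem_union_left _ (mem_image.2 ⟨i, mem_range.2 hi, rfl⟩)⟩
    unfold lpos un
    simp only [List.length_cons, List.length_append, List.length_replicate]
    omega
  · refine ⟨n, ?_, mem_union_right _ (mem_image.2 ⟨(r, c), mem_product.2 ⟨?_, ?_⟩, rfl⟩)⟩
    · unfold dpos un
      simp only [List.length_cons, List.length_append, List.length_replicate]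
      omega
    · have := mem_lists r
      rwa [hr] at this
    · have := mem_lists c
      rwa [hc] at this

lemma str_length (i : ℕ) : (str i).length ≤ Nat.log 2 (i + 1) := by
  have h := le_idx (str i)
  rw [idx_str] at h
  exact Nat.le_log_of_pow_le (by norm_num) h

theorem p_sp : P_sp := by
  intro l N
  classical
  have h1 : ((range N).filter (fun i => str i ∈ Tp l)).card =
      (((range N).filter (fun i => str i ∈ Tp l)).image str).card :=
    (card_image_of_injective _ str_injective).symm
  have h2 : ((range N).filter (fun i => str i ∈ Tp l)).image str ⊆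
      (range (Nat.log 2 (N + 1) + 1)).biUnion (pl l) := by
    intro u hu
    obtain ⟨i, hi, rfl⟩ := mem_image.1 hu
    obtain ⟨hi1, hi2⟩ := mem_filter.1 hi
    obtain ⟨n, hn, hn'⟩ := mem_pl hi2
    refine mem_biUnion.2 ⟨n, mem_range.2 ?_, hn'⟩
    have h3 := str_length i
    have h4 : Nat.log 2 (i + 1) ≤ Nat.log 2 (N + 1) :=
      Nat.log_mono_right (by have := mem_range.1 hi1; omega)
    omega
  rw [h1]
  exact (card_le_card h2).trans (card_biUnion_le.trans (sum_le_sum fun n _ => pl_card l n))

end Pool.Agent.W2helper15.PW
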